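import Mathlib
import Pool.Agent.T2h14.NR.Fin
import Pool.Agent.T2h14.NR.Bridge

/-!
# Rational and numerical equivalence on products with an abelian variety: a sharp criterion

Let `f i` (`i` in a finite set `I`) be Weil `q`-polynomials, for instance the characteristic
polynomials of Frobenius of abelian varieties over the field with `q` elements, `E` a field of complex
numbers (of any degree over `ℚ`) and `r ≥ 0`. We compare the Chow groups of `A × Z` and `Z` for

* all abelian varieties `A` over the fields with `Q = q ^ s` elements, `s > 0`, that are isogenous to
  products of powers of abelian varieties coming from the field with `q` elements with characteristic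
  polynomials `f i`, and
* all smooth projective varieties `Z` such that the eigenvalues of Frobenius on the cohomology of `Z` and
  their conjugates lie, up to powers, in a group generated by the nonzero elements of `E` and `r`
  numbers (for example, `r = 0` and `E` the field generated by all these numbers), and such that the
  homologically trivial self-correspondences of degree zero of `A × Z` are nilpotent, for example `Z`
  is dominated by a product of curves.

The starting theorem `AlmostAllAbelianPerfect` treats almost all families `f`. Here the conditions on `f`
are explicit, and they cannot be weakened.

(1) `Neat`: if a power of a product of roots `z 1 ⋯ z n` of the `f i` is a power of `q` then two of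
    them, `z k` and `z l`, `k ≠ l`, have the product `q` (the angle rank is maximal).
(2) `ConjugateOver E`: each root `z` is conjugate to `q / z` over `E`.
(3) `ManyConjugates r`: each nonzero odd function (`w (q / z) = -w z`) on the set of the roots, with
    values in `ℚ`, has more than `r` linearly independent conjugates: all nonzero Galois-stable spaces
    of odd functions have dimension larger than `r`. For `r = 0` this always holds.

**Theorem.** (a) If (1), (2), (3) hold then for all `A` and `Z` as above there are finitely many products
`D j` of divisors on `A`, of codimension `c j`, such that `CH^n(A × Z)_ℚ = ⨁ D j × CH^(n - c j)(Z)_ℚ` for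
all `n`, and the pairing `CH^n(A × Z)_ℝ × CH^(d-n)(A × Z)_ℝ → ℝ` of the question is perfect if and only
if the pairings for `Z` in codimension `m`, `n - dim A ≤ m ≤ n`, are perfect (`PairingForRankOver`, as in
the starting files). In particular all pairings are perfect if `Z` is a curve or a surface as above.

(b) If `E` is normal over `ℚ`, then (1), (2), (3) hold **if and only if** (`NoRelations`) there are no
exceptional relations: for all `s > 0` and all numbers `ρ` that are roots of a nonzero rational
polynomial all of whose roots lie, up to powers, in a group generated by the nonzero elements of `E` and
`r` numbers, every relation `((z 1 ⋯ z n) ^ s ρ) ^ N = (Q ^ c) ^ N`, `Q = q ^ s`, `n, N > 0`, between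
roots `z k` of the `f i` and `ρ` contains a pair `z k * z l = q`, `k ≠ l`. The left hand sides are the
eigenvalues of Frobenius on `H^n(A) ⊗ H^m(Z)` that can give Tate classes.

The proof of (a). If a relation contains no pair, then the difference `w` of the multiplicities of `z` and
of `q / z` among the `z k` is a nonzero odd function. The odd functions `v` such that `∏ z ^ v z` has a
power in the group generated by `q` and the conjugates of `ρ` form a Galois-stable space `≠ 0`. Modulo
`E` this group has rank at most `r`, so that by (3) there is such a `v ≠ 0` for which a power of
`∏ z ^ v z` is in `E`. By (1) `v` is invariant under the Galois group of `E`, and (2) shows `v = 0`, a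
contradiction. The passage from the relations to cycles is due to helper484 and helper154. In (b) one
constructs exceptional relations if one of the conditions fails: `ρ` is the inverse of a product of
roots.
-/

set_option autoImplicit false

namespace Pool.Agent.Results.MP_4960c7_ag.AngleRelations

open Polynomial Pool.Agent.W521.Descent Pool.Agent.Y154.BQ Pool.Agent.T2h14.NR.Stm

/-- `weilPolys q g` is the set of monic integral polynomials of degree `2 g` with constant term
`q ^ g` and all roots of absolute value `√q`. -/
theorem result {I : Type} [Finite I] (q : ℕ) (hq : 1 < q) (g : I → ℕ) (f : I → ℤ[X])
    (hf : ∀ i, f i ∈ weilPolys q (g i)) (E : IntermediateField ℚ ℂ) (r : ℕ) :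
    (Neat q f ∧ ConjugateOver E q f ∧ ManyConjugates q r f → PairingForRankOver E q r f) ∧
      (Normal ℚ E → (Neat q f ∧ ConjugateOver E q f ∧ ManyConjugates q r f ↔ NoRelations E q r f)) ∧
      ManyConjugates q 0 f := by
  obtain ⟨h1, h2, h3⟩ := Pool.Agent.T2h14.NR.stm_iff hq hf E r
  exact ⟨fun h => Pool.Agent.T2h14.NR.pairingForRankOver_of (fun i => (hf i).1) E hq r (h1 h),
    fun hE => ⟨h1, h2 hE⟩, h3⟩

end Pool.Agent.Results.MP_4960c7_ag.AngleRelations
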