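import Pool.Agent.Z15P.Z15.W.All
import Pool.Agent.Z15P.Z15.S.FinalS

/-!
# Cycles of small dimension on complete intersections over finite fields

Let `X` be a smooth projective variety over a finite field `𝔽_q`. Beilinson conjectured that the pairing
`CH^n(X)_ℝ × CH_n(X)_ℝ → ℝ` is perfect for all `n`. We consider varieties `X` in `ℙ^N` given by forms with few
mixed monomials, for example smooth complete intersections, and prove that `CH_l(X)_ℝ` is
one-dimensional for all `l ≤ s`: cycles of dimension at most `s` which are numerically equivalent to
zero are torsion.

Let `k` be an algebraically closed field of characteristic `p > 0`, for example an algebraic closure of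
`𝔽_q`. Let `X` be the projective variety `F a = 0` (`a ∈ α`), where `F a` are forms of degrees `d a ≥ 2` over
`k`. Put `D = ∑ d a`. Assume that there are disjoint sets `0, …, s` of variables (blocks), and perhaps
further variables, such that each monomial of `F a` which is divisible by a variable of the block `i`
has degree at most `m` in the variables of the blocks `i + 1, …, s`. If each block has more than
`(m + 1) ^ s D` variables then the Chow groups `CH_l(X) ⊗ ℚ` are generated by a linear subspace of
dimension `l`, for all `l ≤ s`, also over all extensions of the field `k`. The number of variables which
is needed is, for fixed `m` and `s`, a linear function of the degrees. In the case `m = 0` there are no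
mixed monomials, `F a = ∑ j, f_{a, j}(x_j, t)`, where the variables `t` belong to no block, and it
suffices to have `D + 1` variables `x_j` for each `j ≥ 1`, `D` variables `x_0` and `D + 1` variables in all.

If `X` is defined over `𝔽_q` then `CH_l(X)_ℝ` is a subspace of the Chow group of `X` over an algebraic
closure of `𝔽_q` with real coefficients, so that it is one-dimensional for `l ≤ s`. If moreover `X` is
smooth then the decomposition of the diagonal, the finiteness of the Picard varieties and the theorem
on zero-cycles quoted in the question show that Beilinson's pairing is perfect for all `n ≤ s + 1` and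
all `n ≥ dim X - s - 1`; this well-known argument (Bloch, Srinivas) is not formalised.

Cycles and rational equivalence are described in terms of function fields (`Pool.Agent.Z15P.Z15.H.cyc`
and the definitions of the files `Pool/Agent/Z15P/Z15/J/Chow.lean`, `Pool/Agent/Z15P/Z15/S/ChowS.lean`).

The proof: let `p` be a point of `X` in the block `0`. Through the generic point of a subvariety of `X`
there is (over a finite extension of its function field) a line in `X` which meets the linear
subspace of the block `s` in a point `z`, such that `X` contains the line through `z` and `p`. So each
cycle is equivalent, up to torsion, to a sum of families of lines through such points `z`. The lines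
through `z` whose direction is in the space spanned by a given direction and the blocks `0, …, s - 1`
are parametrized by a variety of the same kind, with `s - 1` in place of `s`, over the field of
definition of `z`. By induction its cycles are sums of cones with the vertex `p`; rational equivalence
on the generic fibre gives rational equivalence up to vertical terms, with a smaller field of
definition. So all cycles of positive dimension on `X` are sums of cones with the vertex `p`. The cones
are parametrized by the cycles on the variety of all points `w` in the blocks `1, …, s` such that `X`
contains the line through `p` and `w`, which is of the same kind too. In positive characteristic the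
fields of definition are not perfect and the covers are inseparable in general; the theory of function
fields of one variable which is used (the identity `∑ e f = n` and the theorem of Riemann) is proved
for arbitrary fields of constants in `Pool/Agent/Z15P`.
-/

set_option autoImplicit false

namespace Pool.Agent.Results.MP_4960c7_ag.FewMixedMonomials

open MvPolynomial Pool.Agent.Z15P.Z15.Chow Pool.Agent.Z15P.Z15.ChowS

/-- `F a` are forms of degrees `d a ≥ 2`. The variable `i` belongs to the block `b i` if `b i ≤ s`, and to no
block if `b i > s`. Each monomial of `F a` which is divisible by a variable of the block `b i` has degree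
at most `m` in the variables of the blocks `b i + 1, …, s`. The block `0` has at least `(m + 1) ^ s ∑ d a`
variables, the blocks `1, …, s` have more, and there are more than `∑ d a` variables in all. -/
structure Blocks {k : Type} [Field k] {ι α : Type} [Fintype ι] [Fintype α]
    (F : α → MvPolynomial ι k) (d : α → ℕ) (b : ι → ℕ) (s m : ℕ) : Prop where
  hom : ∀ a, (F a).IsHomogeneous (d a)
  two_le : ∀ a, 2 ≤ d a
  mixed : ∀ a, ∀ μ ∈ (F a).support, ∀ i, μ i ≠ 0 → ∑ i' with b i < b i' ∧ b i' ≤ s, μ i' ≤ m
  first : (m + 1) ^ s * ∑ a, d a ≤ Nat.card {i // b i = 0}
  others : ∀ j, 1 ≤ j → j ≤ s → (m + 1) ^ s * ∑ a, d a < Nat.card {i // b i = j}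
  total : ∑ a, d a < Nat.card ι

/-- `Λ 0, …, Λ s` is a basis of a linear subspace which is contained in the variety `F a = 0`. -/
def SpanIn {k : Type} [Field k] {ι α : Type} (s : ℕ) (Λ : ℕ → ι → k)
    (F : α → MvPolynomial ι k) : Prop :=
  (LinearIndependent k fun j : Fin (s + 1) => Λ j) ∧
    ∀ (a : α) (c : Fin (s + 1) → k), eval (fun i => ∑ j, c j * Λ j i) (F a) = 0

/-- Let `F a` (`a ∈ α`) be forms of degrees `d a ≥ 2` over an algebraically closed field `k` of
characteristic `p > 0`, for example an algebraic closure of a finite field, with `D = ∑ d a`. Assume that each
monomial of `F a` which is divisible by a variable of the block `i` has degree at most `m` in the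
variables of the blocks `i + 1, …, s`, that the block `0` has at least `(m + 1) ^ s D` variables, the
blocks `1, …, s` have more than `(m + 1) ^ s D` variables, and that there are more than `D` variables in
all. Then there are linearly independent vectors `Λ 0, …, Λ s` which span a linear subspace of the
variety `F a = 0`, such that for every field `K ⊇ k` and all `l ≤ s`, every cycle of dimension `l` on the
variety over `K` is, in the Chow group with rational coefficients, a multiple of the linear subspace
spanned by `Λ 0, …, Λ l`. -/
theorem result (p : ℕ) [Fact p.Prime] (k : Type) [Field k] [IsAlgClosed k] [CharP k p]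
    {ι α : Type} [Fintype ι] [Fintype α] [Nonempty α] (F : α → MvPolynomial ι k) (d : α → ℕ) (b : ι → ℕ) (s m : ℕ)
    (h : Blocks F d b s m) :
    ∃ Λ : ℕ → ι → k, SpanIn s Λ F ∧ ∀ (K : Type) [Field K] [Algebra k K] (l : ℕ), l ≤ s →
      GeneratedBy K l (fun a => map (algebraMap k K) (F a))
        (linear K (fun i j => algebraMap k K (Λ i j)) l) := by
  classical
  have hk : Infinite k := IsAlgClosed.instInfinite
  have hc : ∀ j, Nat.card {i // b i = j} = (Finset.univ.filter fun i => b i = j).card := fun j => by
    rw [Nat.card_eq_fintype_card, Fintype.card_subtype]
  have hs : Pool.Agent.Z15P.Z15.W.Sizes b s m (∑ a, d a) := by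
    refine ⟨?_, ?_, fun j h1 h2 => ?_⟩
    · have h3 := h.total
      rw [Nat.card_eq_fintype_card] at h3
      exact h3
    · rw [← hc]
      exact h.first
    · rw [← hc]
      exact h.others j h1 h2
  obtain ⟨Λ, h1, h2, h3⟩ := Pool.Agent.Z15P.Z15.W.w_U k ι α F d b s m
    ⟨h.hom, fun a => lt_of_lt_of_le Nat.zero_lt_two (h.two_le a), h.mixed, hs⟩
    ⟨Classical.arbitrary α, h.two_le _⟩
  exact ⟨Λ, ⟨h1, h2⟩, fun K _ _ l hl => of_mult (h3 K l hl)⟩

end Pool.Agent.Results.MP_4960c7_ag.FewMixedMonomials
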