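import Mathlib
import Pool.Agent.T2h14.RG.Mix
import Pool.Agent.T2h14.RG.PDef

/-!
# The real intersection pairings for products of abelian varieties, K3 surfaces, Calabi-Yau varieties, ...

Let `X i` be smooth projective varieties over a finite field whose cohomology is spanned by classes of
algebraic cycles and by eigenvectors of Frobenius in the middle degree `w i = dim X i`, with
eigenvalues the roots of polynomials `f i`, each of multiplicity one. For example: K3 surfaces, where
`f i` is the characteristic polynomial of Frobenius on the transcendental part of `H^2`; smooth
hypersurfaces and complete intersections of any dimension and degree such that the characteristic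
polynomial of Frobenius on the primitive cohomology has simple roots; Calabi-Yau threefolds whose `H^2`
is algebraic and with simple Frobenius eigenvalues on `H^3`. Let `W` be **any product of the `X i`**
(with arbitrary multiplicities; for all extensions of the ground field of any degree `s`), **or an
abelian variety `A`, or the product of an abelian variety `A` and such a product** (`IsMixed`), where `A`
is isogenous to a product of powers of abelian varieties with characteristic polynomials `f j` of
weight `w j = 1`, `j` in a set `T` of indices, and the `X i` have indices `i ∉ T`.

**1. The criterion** (`NoRelations → PairingForMixed`). Let `E` be a field of complex numbers and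
`r ≥ 0`. Suppose that there are no multiplicative relations between the roots of the `f i` and numbers
which, with their conjugates, lie up to powers in a group generated by `E^*` and `r` numbers, except
those which contain a pair `z, q ^ (w i) / z` of roots of the same `f i` (`NoRelations`). Let `W` be as
above and `Z` **any** smooth projective variety such that the eigenvalues of Frobenius on the
cohomology of `Z` and their conjugates lie, up to powers, in a group generated by `E^*` and `r` numbers.
We assume that the homologically trivial self-correspondences of `W × Z` are nilpotent, which is known
if the motives of `W` and `Z` are finite-dimensional in the sense of Kimura and O'Sullivan. Then the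
Kunneth formula holds for the Chow groups of `W × Z` with rational coefficients, with finitely many
cycles on `W`, and for every `n` the real intersection pairing of Beilinson's conjecture on `W × Z` in
codimension `n` is perfect if and only if the pairings on `Z` in the codimensions
`n - dim W ≤ m ≤ n` are perfect.

**2. Explicit families** (`PrimeFamily → NoRelations`): irreducible polynomials of twice prime degree
without imaginary quadratic fields and with different splitting fields; the weights may be different.

**3. One hundred percent of every Hodge type, for arbitrary weights.** By Mazur's theorem (Katz's
conjecture; Ogus) the Newton polygon of the characteristic polynomial of Frobenius on the cohomology of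
degree `w` lies above the Hodge polygon. Let `h i` be **any** Hodge numbers of weight `w i` and rank
`2 g i`, of level at least `m ≥ 1` (they are not concentrated in the middle), with `g i > r`, and let
`E` be **any** number field; the weights may be different. The polynomials which satisfy the conditions of
Weil and of Mazur (`weilPolysOfType`) are finite in number, of the exact order
`∏_{k = 1}^g √q ^ (w k - 2 HP(k))`, where `HP` is the Hodge polygon. All tuples `f i` of such
polynomials but a proportion `O(q ^ (-m / 6) log q)` satisfy `NoRelations`, hence the statement (1) for
all mixed products. The constant depends only on the Hodge numbers and `E`.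

For weight one this is the theorem of the starting library on abelian varieties (`m = 1`, Mazur's
condition is empty). For K3 surfaces `w = m = 2`, `HP(k) = k - 1`, the proportion of the exceptions is
`O(q ^ (-1 / 3) log q)`. The polynomials of a Hodge type of weight `≥ 2` are a set of density zero among
all Weil polynomials of this weight: their coefficients lie in a lattice of large index, a power of
`q`. The proof is a sieve in the product of these lattices (Turan's sieve with primes which split
completely in `E`): there are elements of the Galois group which are trivial on `E` and on all roots
except one pair `z, q ^ (w i) / z` of one polynomial, which they exchange.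
-/

set_option autoImplicit false

namespace Pool.Agent.Results.MP_4960c7_ag.MixedHodgeTypes

open Polynomial Pool.Agent.T2h14 Pool.Agent.T2h14.PW.Stm Pool.Agent.T2h14.HT Pool.Agent.T2h14.RG

/-- **The Kunneth formula for the Chow groups and the perfectness of the real intersection pairings for
products of abelian varieties and varieties with simple Frobenius**: the criterion, the explicit
families, and one hundred percent of the polynomials of every Hodge type. -/
theorem result :
    (∀ {I : Type} [Fintype I] (q : ℕ), 1 < q → ∀ (w : I → ℕ) (f : I → ℤ[X]), (∀ i, (f i).Monic) →
      ∀ (E : IntermediateField ℚ ℂ) (r : ℕ),
        (NoRelations E q r w f → PairingForMixed E q r w f) ∧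
          (Normal ℚ E → PrimeFamily E q r w f → NoRelations E q r w f)) ∧
    ∀ {I : Type} [Fintype I] (w g : I → ℕ) (m r : ℕ) (h : I → ℕ → ℕ), 0 < m → (∀ i, r < g i) →
      (∀ i, HodgeNumbers (w i) (g i) m (h i)) →
      ∀ (E : IntermediateField ℚ ℂ) [FiniteDimensional ℚ E], ∃ C c : ℝ, 0 < c ∧ ∀ q : ℕ,
        IsPrimePow q →
        (∀ i, (weilPolysOfType q (w i) (g i) (h i)).Finite ∧
          c * hodgeSize q (w i) (g i) (h i) ≤ (weilPolysOfType q (w i) (g i) (h i)).ncard ∧
          ((weilPolysOfType q (w i) (g i) (h i)).ncard : ℝ) ≤
            C * hodgeSize q (w i) (g i) (h i)) ∧
        ({f : I → ℤ[X] | (∀ i, f i ∈ weilPolysOfType q (w i) (g i) (h i)) ∧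
          ¬ (NoRelations E q r w f ∧ PairingForMixed E q r w f)}.ncard : ℝ) ≤
          C * (Real.log q * (q : ℝ) ^ (-((m : ℝ) / 6))) *
            ∏ i, ((weilPolysOfType q (w i) (g i) (h i)).ncard : ℝ) :=
  ⟨fun q hq w f hf E r => ⟨pairingForMixed_of hq hf, fun _ h => primeFamily hq hf h⟩,
  fun w g m r h hm hr hh E _ => count w g m r h hm hr hh E (fun q f => PairingForMixed E q r w f)
    fun _ hq _ hf => pairingForMixed_of hq hf⟩

end Pool.Agent.Results.MP_4960c7_ag.MixedHodgeTypes
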