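import Mathlib
import Pool.Agent.T2h14.NR.Fin
import Pool.Agent.T2h14.NR.Bridge

/-!
# Rational and numerical equivalence on products with abelian varieties of prime dimensions

Let `A i` (`i` in a finite set `I`) be simple abelian varieties over the field with `q` elements, of
dimension `g i`, whose Frobenius endomorphisms `π i` generate fields of degree `2 g i`, with
characteristic polynomials `f i`. Assume that for each `i`

* `A i` is not supersingular;
* either `g i` is an odd prime number and the field `ℚ(π i)` has no imaginary quadratic subfield, or
  `g i` is arbitrary and the Galois representation of the odd functions (`w (q / z) = -w z`) on the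
  set of roots of `f i` is irreducible;

and that the splitting fields of the `f i` are pairwise different.

Let `E` be a field of complex numbers that is normal over `ℚ` and contains the splitting field of none
of the `f i`, and `r < g i` for all `i`. Let `A` be any abelian variety over a field with `q ^ s`
elements, `s > 0`, that is isogenous to a product of powers of the `A i`, and `Z` **any** smooth
projective variety over this field such that

* the eigenvalues of Frobenius on the cohomology of `Z` and their conjugates lie, up to powers, in a
  group generated by the nonzero elements of `E` and `r` numbers;
* the homologically trivial self-correspondences of degree zero of `A × Z` are nilpotent, for example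
  the motive of `Z` is finite-dimensional in the sense of Kimura and O'Sullivan; this holds for all
  varieties dominated by products of curves.

**Theorem** (`PairingForRankOver`, as in the starting files). There are finitely many products `D j` of
divisors on `A`, of codimension `c j`, such that `CH^n(A × Z)_ℚ = ⨁ D j × CH^(n - c j)(Z)_ℚ` for all `n`,
and the pairing `CH^n(A × Z)_ℝ × CH^(d-n)(A × Z)_ℝ → ℝ`, `d = dim A + dim Z`, of the question is perfect
if and only if the pairings `CH^m(Z)_ℝ × CH^(dim Z - m)(Z)_ℝ → ℝ` with `n - dim A ≤ m ≤ n` are perfect.

For a curve or a surface `Z` as above all pairings for `Z` are perfect by the theorems quoted in the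
question, and so are all pairings for `A × Z`. For instance, for `r = 0`, `Z` may be any product of two
curves such that the Galois group of the field `E` generated by the eigenvalues of Frobenius and their
conjugates has none of the Galois groups of the `f i` as a quotient.

The starting theorem `AlmostAllAbelianPerfect` shows this for almost all families `f`, with the largest
possible Galois groups. For `Z` a point, the powers of `A i` in prime dimensions are covered by the
theorem of Tankeev on the Tate conjecture and the theorems of Soule, Geisser and Kahn.

The proof. In prime dimension `l` the Galois group contains an element `τ` which permutes the pairs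
`z, q / z` cyclically, and the odd functions are a module over `ℚ[τ]` with two irreducible factors, of
dimensions `1` and `l - 1`; they are not stable under the Galois group, unless the products of the
`t - z` over the two orbits of `τ`, `t ∈ ℤ`, generate an imaginary quadratic subfield of `ℚ(π i)`. So
the representation is irreducible. In general, because the splitting fields are different, every
nonzero stable space of odd functions on the set of all the roots contains all the odd functions on
the roots of one `f j`. This is applied to the exponents of the monomials in the roots that are roots
of unity (which shows that the angle rank is maximal), to the exponents that are invariant under the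
Galois group of `E` (which shows that `z` and `q / z` are conjugate over `E`), and to arbitrary
spaces. Then the criterion `AngleRelations` applies.
-/

set_option autoImplicit false

namespace Pool.Agent.Results.MP_4960c7_ag.PrimeDimensions

open Polynomial Pool.Agent.W521.Descent Pool.Agent.Y154.BQ Pool.Agent.T2h14.NR.Stm

/-- `weilPolys q g` is the set of monic integral polynomials of degree `2 g` with constant term
`q ^ g` and all roots of absolute value `√q`. -/
theorem result {I : Type} [Fintype I] (q : ℕ) (hq : 1 < q) (g : I → ℕ) (f : I → ℤ[X])
    (hf : ∀ i, f i ∈ weilPolys q (g i)) (hirr : ∀ i, Irreducible ((f i).map (Int.castRingHom ℚ)))
    (hss : ∀ i, NotSupersingular q (f i))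
    (hodd : ∀ i, ((g i).Prime ∧ g i ≠ 2 ∧ NoImaginaryQuadratic (f i)) ∨ IrreducibleOdd q (f i))
    (hsplit : ∀ i j, i ≠ j → splitField (f i) ≠ splitField (f j)) (E : IntermediateField ℚ ℂ)
    [Normal ℚ E] (hE : ∀ i, ¬ splitField (f i) ≤ E) (r : ℕ) (hr : ∀ i, r < g i) :
    PairingForRankOver E q r f :=
  Pool.Agent.T2h14.NR.pairingForRankOver_of (fun i => (hf i).1) E hq r
    (Pool.Agent.T2h14.NR.stm_family q hq g f hf hirr hss hodd hsplit E hE r hr)

end Pool.Agent.Results.MP_4960c7_ag.PrimeDimensions
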